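import Mathlib

/-!
# Filtrations of `ℤ_p[[X_1, …, X_d]]` and polynomial approximation
-/

set_option autoImplicit false

namespace Pool.Agent.Helper79.ProP

open IsLocalRing

variable (p d : ℕ) [Fact p.Prime]

/-- The coefficients of degree `< n` are divisible by `p ^ n`. -/
def In (n : ℕ) : Ideal (MvPowerSeries (Fin d) ℤ_[p]) where
  carrier := {r | ∀ a : Fin d →₀ ℕ, a.degree < n → (p : ℤ_[p]) ^ n ∣ MvPowerSeries.coeff a r}
  add_mem' := by
    intro r s hr hs a ha
    rw [map_add]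
    exact dvd_add (hr a ha) (hs a ha)
  zero_mem' := by
    intro a _
    rw [map_zero]
    exact dvd_zero _
  smul_mem' := by
    classical
    intro c r hr a ha
    rw [smul_eq_mul, MvPowerSeries.coeff_mul]
    refine Finset.dvd_sum fun q hq => ?_
    have h1 := Finset.HasAntidiagonal.mem_antidiagonal.1 hq
    refine Dvd.dvd.mul_left (hr q.2 ?_) _
    rw [← h1, map_add] at ha
    omega

/-- The coefficients of degree `i` are divisible by `p ^ (k - i)`. -/
def Jk (k : ℕ) : Ideal (MvPowerSeries (Fin d) ℤ_[p]) where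
  carrier := {r | ∀ a : Fin d →₀ ℕ, (p : ℤ_[p]) ^ (k - a.degree) ∣ MvPowerSeries.coeff a r}
  add_mem' := by
    intro r s hr hs a
    rw [map_add]
    exact dvd_add (hr a) (hs a)
  zero_mem' := by
    intro a
    rw [map_zero]
    exact dvd_zero _
  smul_mem' := by
    classical
    intro c r hr a
    rw [smul_eq_mul, MvPowerSeries.coeff_mul]
    refine Finset.dvd_sum fun q hq => ?_
    have h1 := Finset.HasAntidiagonal.mem_antidiagonal.1 hq
    refine Dvd.dvd.mul_left ((pow_dvd_pow _ ?_).trans (hr q.2)) _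
    rw [← h1, map_add]
    omega

variable {p d}

theorem mem_In {n : ℕ} {r : MvPowerSeries (Fin d) ℤ_[p]} : r ∈ In p d n ↔
    ∀ a : Fin d →₀ ℕ, a.degree < n → (p : ℤ_[p]) ^ n ∣ MvPowerSeries.coeff a r := Iff.rfl

theorem mem_Jk {n : ℕ} {r : MvPowerSeries (Fin d) ℤ_[p]} : r ∈ Jk p d n ↔
    ∀ a : Fin d →₀ ℕ, (p : ℤ_[p]) ^ (n - a.degree) ∣ MvPowerSeries.coeff a r := Iff.rfl

theorem In_anti {m n : ℕ} (h : m ≤ n) : In p d n ≤ In p d m := by
  intro r hr a ha
  exact (pow_dvd_pow _ h).trans (hr a (by omega))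

theorem Jk_mul (k l : ℕ) : Jk p d k * Jk p d l ≤ Jk p d (k + l) := by
  classical
  rw [Ideal.mul_le]
  intro r hr s hs a
  rw [MvPowerSeries.coeff_mul]
  refine Finset.dvd_sum fun q hq => ?_
  have h1 := Finset.HasAntidiagonal.mem_antidiagonal.1 hq
  have h2 := mul_dvd_mul (hr q.1) (hs q.2)
  rw [← pow_add] at h2
  refine (pow_dvd_pow _ ?_).trans h2
  rw [← h1, map_add]
  omega

theorem max_le_Jk : maximalIdeal (MvPowerSeries (Fin d) ℤ_[p]) ≤ Jk p d 1 := by
  intro r hr a
  by_cases ha : a = 0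
  · subst ha
    rw [mem_maximalIdeal, mem_nonunits_iff, MvPowerSeries.isUnit_iff_constantCoeff] at hr
    have h1 : MvPowerSeries.constantCoeff r ∈ maximalIdeal ℤ_[p] := hr
    rw [PadicInt.maximalIdeal_eq_span_p, Ideal.mem_span_singleton] at h1
    simpa using h1
  · have h1 : a.degree ≠ 0 := by
      intro h
      exact ha ((Finsupp.degree_eq_zero_iff a).1 h)
    have h2 : 1 - a.degree = 0 := by omega
    rw [h2, pow_zero]
    exact one_dvd _

theorem pow_max_le (k : ℕ) : maximalIdeal (MvPowerSeries (Fin d) ℤ_[p]) ^ k ≤ Jk p d k := by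
  induction k with
  | zero =>
    intro r _ a
    simp
  | succ k ih =>
    rw [pow_succ]
    exact (Ideal.mul_mono ih max_le_Jk).trans (Jk_mul k 1)

theorem Jk_le_In (n : ℕ) : Jk p d (2 * n) ≤ In p d n := by
  intro r hr a ha
  exact (pow_dvd_pow _ (by omega)).trans (hr a)

theorem pow_max_le_In (n : ℕ) :
    maximalIdeal (MvPowerSeries (Fin d) ℤ_[p]) ^ (2 * n) ≤ In p d n :=
  (pow_max_le _).trans (Jk_le_In n)

variable (p d)

/-- Integer polynomials as power series. -/
noncomputable def cc : MvPolynomial (Fin d) ℤ →+* MvPowerSeries (Fin d) ℤ_[p] :=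
  (MvPolynomial.coeToMvPowerSeries.ringHom).comp (MvPolynomial.map (Int.castRingHom ℤ_[p]))

variable {p d}

theorem coeff_cc (f : MvPolynomial (Fin d) ℤ) (a : Fin d →₀ ℕ) :
    MvPowerSeries.coeff a (cc p d f) = ((MvPolynomial.coeff a f : ℤ) : ℤ_[p]) := by
  unfold cc
  rw [RingHom.comp_apply, MvPolynomial.coeToMvPowerSeries.ringHom_apply, MvPolynomial.coeff_coe,
    MvPolynomial.coeff_map]
  rfl

theorem cc_X (i : Fin d) : cc p d (MvPolynomial.X i) = MvPowerSeries.X i := by
  unfold cc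
  rw [RingHom.comp_apply, MvPolynomial.coeToMvPowerSeries.ringHom_apply, MvPolynomial.map_X,
    MvPolynomial.coe_X]

theorem exists_approx (r : MvPowerSeries (Fin d) ℤ_[p]) (n : ℕ) :
    ∃ f : MvPolynomial (Fin d) ℤ, cc p d f - r ∈ In p d n := by
  classical
  set s : Finset (Fin d →₀ ℕ) := (Finsupp.finite_of_degree_lt (σ := Fin d) n).toFinset with hs
  refine ⟨∑ a ∈ s, MvPolynomial.monomial a (((MvPowerSeries.coeff a r).appr n : ℕ) : ℤ), ?_⟩
  intro a ha
  rw [map_sub, coeff_cc, MvPolynomial.coeff_sum]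
  have h1 : ∑ x ∈ s, MvPolynomial.coeff a
      (MvPolynomial.monomial x (((MvPowerSeries.coeff x r).appr n : ℕ) : ℤ)) =
      (((MvPowerSeries.coeff a r).appr n : ℕ) : ℤ) := by
    rw [Finset.sum_eq_single a]
    · rw [MvPolynomial.coeff_monomial, if_pos rfl]
    · intro b _ hb
      rw [MvPolynomial.coeff_monomial, if_neg hb]
    · intro h
      rw [hs, Set.Finite.mem_toFinset] at h
      exact absurd ha h
  rw [h1, ← neg_sub, dvd_neg]
  have h2 := PadicInt.appr_spec n (MvPowerSeries.coeff a r)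
  rw [Ideal.mem_span_singleton] at h2
  exact_mod_cast h2

end Pool.Agent.Helper79.ProP
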