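import Pool.Agent.Helper85.ProP.TopStmts
import Pool.Agent.Helper79.ProP.Filt

/-!
# Packet T1 of MP_ac806c_lc: compact groups with commuting operators as modules over power series
-/

set_option autoImplicit false

namespace Pool.Agent.Helper79.ProP

open IsLocalRing Pool.Agent.Helper85.ProP Filter Topology

universe u

/-- Polynomials act through commuting additive maps. -/
theorem exists_ev {B : Type u} [AddCommGroup B] {d : ℕ} (T : Fin d → (B →+ B))
    (hT : ∀ i j b, T i (T j b) = T j (T i b)) :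
    ∃ ev : MvPolynomial (Fin d) ℤ →+* AddMonoid.End B, ∀ i, ev (MvPolynomial.X i) = T i := by
  classical
  let s : Set (AddMonoid.End B) := Set.range fun i => (T i : AddMonoid.End B)
  have hcomm : ∀ x ∈ s, ∀ y ∈ s, x * y = y * x := by
    rintro _ ⟨i, rfl⟩ _ ⟨j, rfl⟩
    exact AddMonoidHom.ext fun b => hT i j b
  have hmc := Subring.isMulCommutative_closure hcomm
  let S := Subring.closure s
  let _ : CommRing S := { (inferInstance : Ring S) with
    mul_comm := fun a b => Subtype.ext (setLike_mul_comm a.2 b.2) }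
  let φ : MvPolynomial (Fin d) ℤ →+* S := MvPolynomial.eval₂Hom (Int.castRingHom S)
    (fun i => ⟨T i, Subring.subset_closure ⟨i, rfl⟩⟩)
  refine ⟨S.subtype.comp φ, fun i => ?_⟩
  rw [RingHom.comp_apply]
  have h1 : φ (MvPolynomial.X i) = ⟨T i, Subring.subset_closure ⟨i, rfl⟩⟩ :=
    MvPolynomial.eval₂Hom_X' _ _ i
  rw [h1]
  rfl

section

variable {B : Type u} [AddCommGroup B] {d : ℕ} {T : Fin d → (B →+ B)}
  {ev : MvPolynomial (Fin d) ℤ →+* AddMonoid.End B} (hev : ∀ i, ev (MvPolynomial.X i) = T i)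

theorem ev_C (ev : MvPolynomial (Fin d) ℤ →+* AddMonoid.End B) (z : ℤ) (b : B) :
    ev (MvPolynomial.C z) b = z • b := by
  have h1 : (MvPolynomial.C z : MvPolynomial (Fin d) ℤ) = (z : MvPolynomial (Fin d) ℤ) := by
    rw [← eq_intCast (MvPolynomial.C : ℤ →+* MvPolynomial (Fin d) ℤ)]
  rw [h1, map_intCast]
  rfl

theorem ev_mul_apply (f g : MvPolynomial (Fin d) ℤ) (b : B) : ev (f * g) b = ev f (ev g b) := by
  rw [map_mul]
  rfl

theorem ev_add_apply (f g : MvPolynomial (Fin d) ℤ) (b : B) : ev (f + g) b = ev f b + ev g b := by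
  rw [map_add]
  rfl

theorem ev_sub_apply (f g : MvPolynomial (Fin d) ℤ) (b : B) : ev (f - g) b = ev f b - ev g b := by
  have h1 := ev_add_apply (ev := ev) (f - g) g b
  rw [sub_add_cancel] at h1
  rw [h1, add_sub_cancel_right]

theorem ev_sum {ι : Type*} (s : Finset ι) (g : ι → MvPolynomial (Fin d) ℤ) (b : B) :
    ev (∑ i ∈ s, g i) b = ∑ i ∈ s, ev (g i) b := by
  classical
  induction s using Finset.induction_on with
  | empty => rw [Finset.sum_empty, map_zero, Finset.sum_empty]; rfl
  | insert i s hi ih => rw [Finset.sum_insert hi, ev_add_apply, ih, Finset.sum_insert hi]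

include hev

theorem ev_mem (N : AddSubgroup B) (hN : ∀ i, ∀ b ∈ N, T i b ∈ N) (f : MvPolynomial (Fin d) ℤ) :
    ∀ b ∈ N, ev f b ∈ N := by
  induction f using MvPolynomial.induction_on with
  | C z => intro b hb; rw [ev_C]; exact N.zsmul_mem hb z
  | add f g hf hg =>
    intro b hb
    rw [ev_add_apply]
    exact N.add_mem (hf b hb) (hg b hb)
  | mul_X f i hf =>
    intro b hb
    rw [ev_mul_apply, hev]
    exact hf _ (hN i b hb)

theorem ev_pow (i : Fin d) (n : ℕ) (b : B) : ev (MvPolynomial.X i ^ n) b = (T i)^[n] b := by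
  induction n generalizing b with
  | zero => rw [pow_zero, map_one]; rfl
  | succ n ih =>
    rw [pow_succ, ev_mul_apply, hev, ih, Function.iterate_succ_apply]
    rfl

theorem ev_small {p : ℕ} [Fact p.Prime] (U : AddSubgroup B) (n0 : ℕ)
    (h : ∀ b, p ^ n0 • b ∈ U ∧ ∀ i, (T i)^[n0] b ∈ U) :
    ∃ n, ∀ f : MvPolynomial (Fin d) ℤ, cc p d f ∈ In p d n → ∀ b, ev f b ∈ U := by
  classical
  refine ⟨d * n0 + n0 + 1, fun f hf b => ?_⟩
  rw [← MvPolynomial.support_sum_monomial_coeff f]
  have h1 : ev (∑ a ∈ f.support, MvPolynomial.monomial a (MvPolynomial.coeff a f)) b =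
      ∑ a ∈ f.support, ev (MvPolynomial.monomial a (MvPolynomial.coeff a f)) b := ev_sum _ _ _
  rw [h1]
  refine AddSubgroup.sum_mem _ fun a _ => ?_
  by_cases ha : a.degree < d * n0 + n0 + 1
  · have h2 := hf a ha
    rw [coeff_cc, PadicInt.pow_p_dvd_int_iff] at h2
    have h3 : ((p : ℤ) ^ n0) ∣ MvPolynomial.coeff a f := (pow_dvd_pow _ (by omega)).trans h2
    obtain ⟨c, hc⟩ := h3
    rw [hc, ← MvPolynomial.C_mul_monomial, ev_mul_apply, ev_C]
    have h4 := (h (ev (MvPolynomial.monomial a c) b)).1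
    have h5 : ((p : ℤ) ^ n0) • ev (MvPolynomial.monomial a c) b =
        p ^ n0 • ev (MvPolynomial.monomial a c) b := by
      rw [← natCast_zsmul]
      push_cast
      rfl
    rw [h5]
    exact h4
  · have h2 : ∃ i, n0 ≤ a i := by
      by_contra hcon
      push Not at hcon
      have h3 : a.degree ≤ d * n0 := by
        rw [Finsupp.degree_eq_sum]
        calc ∑ i, a i ≤ ∑ _i : Fin d, n0 := Finset.sum_le_sum fun i _ => (hcon i).le
          _ = d * n0 := by simp
      omega
    obtain ⟨i, hi⟩ := h2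
    have h3 : MvPolynomial.monomial a (MvPolynomial.coeff a f) =
        MvPolynomial.X i ^ n0 *
          MvPolynomial.monomial (a - Finsupp.single i n0) (MvPolynomial.coeff a f) := by
      rw [MvPolynomial.X_pow_eq_monomial, MvPolynomial.monomial_mul, one_mul,
        add_tsub_cancel_of_le]
      rwa [Finsupp.single_le_iff]
    rw [h3, ev_mul_apply, ev_pow hev]
    exact (h _).2 i

end

/-- small open invariant subgroups -/
structure GoodU (p : ℕ) {B : Type u} [AddCommGroup B] [TopologicalSpace B] {d : ℕ}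
    (T : Fin d → (B →+ B)) (U : AddSubgroup B) : Prop where
  op : IsOpen (U : Set B)
  inv : ∀ i, ∀ b ∈ U, T i b ∈ U
  nil : ∃ n : ℕ, ∀ b, p ^ n • b ∈ U ∧ ∀ i, (T i)^[n] b ∈ U

/-- `n` is large enough for `U` -/
def Enough (p : ℕ) [Fact p.Prime] {B : Type u} [AddCommGroup B] {d : ℕ}
    (ev : MvPolynomial (Fin d) ℤ →+* AddMonoid.End B) (U : AddSubgroup B) (n : ℕ) : Prop :=
  ∀ f : MvPolynomial (Fin d) ℤ, cc p d f ∈ In p d n → ∀ b, ev f b ∈ U

section

variable {p : ℕ} [Fact p.Prime] {B : Type u} [AddCommGroup B] [TopologicalSpace B]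
  [IsTopologicalAddGroup B] {d : ℕ} {T : Fin d → (B →+ B)}
  {ev : MvPolynomial (Fin d) ℤ →+* AddMonoid.End B}

theorem exists_act [CompactSpace B] (r : MvPowerSeries (Fin d) ℤ_[p]) (b : B) :
    ∃ c : B, ∀ U : AddSubgroup B, GoodU p T U → ∀ n, Enough p ev U n →
      ∀ f, cc p d f - r ∈ In p d n → ev f b - c ∈ U := by
  choose ap hap using exists_approx (p := p) (d := d) r
  obtain ⟨c, hc⟩ := exists_clusterPt_of_compactSpace (map (fun n => ev (ap n) b) atTop)
  have hc' : MapClusterPt c atTop (fun n => ev (ap n) b) := hc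
  refine ⟨c, fun U hU n hn f hf => ?_⟩
  have h1 : ∀ m, n ≤ m → ev f b - ev (ap m) b ∈ U := by
    intro m hm
    rw [← ev_sub_apply]
    refine hn _ ?_ b
    have h2 : cc p d (f - ap m) = (cc p d f - r) - (cc p d (ap m) - r) := by
      rw [map_sub]; ring
    rw [h2]
    exact Ideal.sub_mem _ hf (In_anti hm (hap m))
  have hnb : {x : B | x - c ∈ U} ∈ 𝓝 c := by
    refine IsOpen.mem_nhds ?_ ?_
    · exact hU.op.preimage (continuous_id.sub continuous_const)
    · change c - c ∈ U
      rw [sub_self]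
      exact U.zero_mem
  have h3 := hc'.frequently hnb
  obtain ⟨m, hm, hmn⟩ := (h3.and_eventually (eventually_ge_atTop n)).exists
  have h4 := U.add_mem (h1 m hmn) hm
  rwa [sub_add_sub_cancel] at h4

end

theorem stmtT1 : StmtT1.{u} := by
  classical
  intro p _ d B _ _ _ _ _ T hT hgood
  obtain ⟨ev, hev⟩ := exists_ev T hT
  -- good subgroups
  have hex : ∀ V : Set B, IsOpen V → (0 : B) ∈ V → ∃ U : AddSubgroup B, GoodU p T U ∧
      (U : Set B) ⊆ V := by
    intro V hV h0
    obtain ⟨U, h1, h2, h3, h4⟩ := hgood V hV h0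
    exact ⟨U, ⟨h1, h3, h4⟩, h2⟩
  have hen : ∀ U, GoodU p T U → ∃ n, Enough p ev U n := by
    intro U hU
    obtain ⟨n0, hn0⟩ := hU.nil
    exact ev_small hev U n0 hn0
  have hsep : ∀ x y : B, (∀ U : AddSubgroup B, GoodU p T U → x - y ∈ U) → x = y := by
    intro x y h
    by_contra hne
    have hne' : x - y ≠ 0 := sub_ne_zero.2 hne
    obtain ⟨U, hU, hUV⟩ := hex {x - y}ᶜ isOpen_compl_singleton (fun h => hne' h.symm)
    exact hUV (h U hU) rfl
  choose act hact using fun r b => exists_act (p := p) (T := T) (ev := ev) r b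
  -- comparison lemma
  have hP : ∀ U, GoodU p T U → ∃ n, Enough p ev U n ∧
      ∀ r f, cc p d f - r ∈ In p d n → ∀ b, ev f b - act r b ∈ U := by
    intro U hU
    obtain ⟨n, hn⟩ := hen U hU
    exact ⟨n, hn, fun r f hf b => hact r b U hU n hn f hf⟩
  have hUev : ∀ U, GoodU p T U → ∀ f : MvPolynomial (Fin d) ℤ, ∀ b ∈ U, ev f b ∈ U :=
    fun U hU f => ev_mem hev U hU.inv f
  have hcoe : ∀ f : MvPolynomial (Fin d) ℤ, ∀ b, act (cc p d f) b = ev f b := by
    intro f b
    refine (hsep _ _ fun U hU => ?_).symm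
    obtain ⟨n, -, h⟩ := hP U hU
    exact h _ f (by rw [sub_self]; exact Ideal.zero_mem _) b
  have hact_add : ∀ r b b', act r (b + b') = act r b + act r b' := by
    intro r b b'
    refine hsep _ _ fun U hU => ?_
    obtain ⟨n, -, h⟩ := hP U hU
    obtain ⟨f, hf⟩ := exists_approx r n
    have h1 := h r f hf (b + b')
    have h2 := h r f hf b
    have h3 := h r f hf b'
    rw [map_add] at h1
    have h4 := U.sub_mem (U.add_mem h2 h3) h1
    convert h4 using 1
    abel
  have hact_add' : ∀ r s b, act (r + s) b = act r b + act s b := by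
    intro r s b
    refine hsep _ _ fun U hU => ?_
    obtain ⟨n, -, h⟩ := hP U hU
    obtain ⟨f, hf⟩ := exists_approx r n
    obtain ⟨g, hg⟩ := exists_approx s n
    have h1 := h (r + s) (f + g) (by
      have := Ideal.add_mem _ hf hg
      rw [map_add]
      convert this using 1
      ring) b
    have h2 := h r f hf b
    have h3 := h s g hg b
    rw [ev_add_apply] at h1
    have h4 := U.sub_mem (U.add_mem h2 h3) h1
    convert h4 using 1
    abel
  have hact_mul : ∀ r s b, act (r * s) b = act r (act s b) := by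
    intro r s b
    refine hsep _ _ fun U hU => ?_
    obtain ⟨n, -, h⟩ := hP U hU
    obtain ⟨f, hf⟩ := exists_approx r n
    obtain ⟨g, hg⟩ := exists_approx s n
    have h1 := h (r * s) (f * g) (by
      have h2 := Ideal.mul_mem_right (cc p d g) _ hf
      have h3 := Ideal.mul_mem_left _ r hg
      have h4 := Ideal.add_mem _ h2 h3
      rw [map_mul]
      convert h4 using 1
      ring) b
    have h2 := h r f hf (act s b)
    have h3 := hUev U hU f _ (h s g hg b)
    rw [ev_mul_apply] at h1
    rw [map_sub] at h3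
    have h4 := U.sub_mem (U.add_mem h2 h3) h1
    convert h4 using 1
    abel
  have hact_one : ∀ b, act 1 b = b := by
    intro b
    have h1 := hcoe 1 b
    rw [map_one, map_one] at h1
    exact h1
  have hact_zero : ∀ r, act r 0 = 0 := by
    intro r
    have h1 := hact_add r 0 0
    rw [add_zero] at h1
    exact left_eq_add.1 h1
  have hact_zero' : ∀ b, act 0 b = 0 := by
    intro b
    have h1 := hact_add' 0 0 b
    rw [add_zero] at h1
    exact left_eq_add.1 h1
  let inst : Module (MvPowerSeries (Fin d) ℤ_[p]) B :=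
    { smul := act
      one_smul := hact_one
      mul_smul := hact_mul
      smul_zero := hact_zero
      smul_add := hact_add
      add_smul := hact_add'
      zero_smul := hact_zero' }
  have hsm : ∀ (r : MvPowerSeries (Fin d) ℤ_[p]) (b : B), r • b = act r b := fun r b => rfl
  have hsmall : ∀ U, GoodU p T U → ∃ n, ∀ r ∈ In p d n, ∀ b : B, r • b ∈ U := by
    intro U hU
    obtain ⟨n, -, h⟩ := hP U hU
    refine ⟨n, fun r hr b => ?_⟩
    have h1 := h r 0 (by rw [map_zero, zero_sub]; exact Ideal.neg_mem_iff _ |>.2 hr) b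
    rw [map_zero] at h1
    have h2 : (0 : AddMonoid.End B) b - act r b = -(act r b) := by
      change 0 - act r b = _
      rw [zero_sub]
    rw [h2] at h1
    rw [hsm]
    exact U.neg_mem_iff.1 h1
  refine ⟨inst, ?_, ?_, ?_, ?_⟩
  · intro i b
    rw [hsm, ← cc_X, hcoe, hev]
    rfl
  · intro U hU
    obtain ⟨U', hU', hUU⟩ := hex U hU U.zero_mem
    obtain ⟨n, hn⟩ := hsmall U' hU'
    exact ⟨2 * n, fun r hr b => hUU (hn r (pow_max_le_In n hr) b)⟩
  · intro N hN
    obtain ⟨k, v, hv⟩ := Submodule.fg_iff_exists_fin_generating_family.1 hN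
    -- continuity of `r ↦ r • b`
    have hcont : ∀ b : B, Continuous (fun r : (Fin d →₀ ℕ) → ℤ_[p] =>
        ((show MvPowerSeries (Fin d) ℤ_[p] from r) • b : B)) := by
      intro b
      rw [continuous_iff_continuousAt]
      intro r0
      rw [ContinuousAt, tendsto_def]
      intro V hV
      obtain ⟨W, hWV, hWo, hW⟩ := mem_nhds_iff.1 hV
      obtain ⟨U, hU, hUW⟩ := hex {x | (show MvPowerSeries (Fin d) ℤ_[p] from r0) • b + x ∈ W}
        (hWo.preimage (continuous_const.add continuous_id)) (by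
          change _ + 0 ∈ W
          rw [add_zero]
          exact hW)
      obtain ⟨n, hn⟩ := hsmall U hU
      have hfin : {a : Fin d →₀ ℕ | a.degree < n}.Finite := Finsupp.finite_of_degree_lt n
      have hopen : IsOpen {r : (Fin d →₀ ℕ) → ℤ_[p] | ∀ a ∈ {a : Fin d →₀ ℕ | a.degree < n},
          (p : ℤ_[p]) ^ n ∣ r a - r0 a} := by
        have h1 : {r : (Fin d →₀ ℕ) → ℤ_[p] | ∀ a ∈ {a : Fin d →₀ ℕ | a.degree < n},
            (p : ℤ_[p]) ^ n ∣ r a - r0 a} = ⋂ a ∈ {a : Fin d →₀ ℕ | a.degree < n},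
            {r : (Fin d →₀ ℕ) → ℤ_[p] | (p : ℤ_[p]) ^ n ∣ r a - r0 a} := by
          ext r
          simp
        rw [h1]
        refine hfin.isOpen_biInter fun a _ => ?_
        have h2 : IsOpen {z : ℤ_[p] | (p : ℤ_[p]) ^ n ∣ z} := by
          have h3 : {z : ℤ_[p] | (p : ℤ_[p]) ^ n ∣ z} =
              Metric.closedBall (0 : ℤ_[p]) ((p : ℝ) ^ (-(n : ℤ))) := by
            ext z
            rw [Metric.mem_closedBall, dist_zero_right, PadicInt.norm_le_pow_iff_mem_span_pow,
              Ideal.mem_span_singleton]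
            rfl
          rw [h3]
          have hp0 : (0 : ℝ) < p := by exact_mod_cast (Fact.out : p.Prime).pos
          exact IsUltrametricDist.isOpen_closedBall 0 (zpow_ne_zero _ hp0.ne')
        have h4 : Continuous fun r : (Fin d →₀ ℕ) → ℤ_[p] => r a - r0 a :=
          (continuous_apply a).sub continuous_const
        exact h2.preimage h4
      refine mem_of_superset (hopen.mem_nhds (by intro a _; simp)) ?_
      intro r hr
      change (show MvPowerSeries (Fin d) ℤ_[p] from r) • b ∈ V
      apply hWV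
      have h1 : ((show MvPowerSeries (Fin d) ℤ_[p] from r) -
          (show MvPowerSeries (Fin d) ℤ_[p] from r0)) • b ∈ U := by
        refine hn _ ?_ b
        intro a ha
        exact hr a ha
      have h2 := hUW h1
      change (show MvPowerSeries (Fin d) ℤ_[p] from r0) • b + _ ∈ W at h2
      rw [sub_smul, add_sub_cancel] at h2
      exact h2
    have hrange : (N : Set B) = Set.range (fun c : Fin k → ((Fin d →₀ ℕ) → ℤ_[p]) =>
        ∑ i : Fin k, ((show MvPowerSeries (Fin d) ℤ_[p] from c i) • v i : B)) := by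
      ext x
      rw [← hv, SetLike.mem_coe, Submodule.mem_span_range_iff_exists_fun]
      rfl
    rw [hrange]
    refine IsCompact.isClosed (isCompact_range ?_)
    exact continuous_finsetSum _ fun i _ => (hcont (v i)).comp (continuous_apply i)
  · intro N hNc hN r b hb
    rw [← SetLike.mem_coe, ← hNc.closure_eq, mem_closure_iff]
    intro V hV hrb
    obtain ⟨U, hU, hUV⟩ := hex {x | r • b + x ∈ V} (hV.preimage (continuous_const.add continuous_id))
      (by change _ + 0 ∈ V; rw [add_zero]; exact hrb)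
    obtain ⟨n, -, h⟩ := hP U hU
    obtain ⟨f, hf⟩ := exists_approx r n
    have h1 := h r f hf b
    have h2 := hUV h1
    change r • b + (ev f b - act r b) ∈ V at h2
    rw [hsm, add_sub_cancel] at h2
    exact ⟨ev f b, h2, ev_mem hev N hN f b hb⟩

end Pool.Agent.Helper79.ProP
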